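import Mathlib
import Pool.Agent.Helper10.SmProj

/-!
# Closed points of smooth projective varieties
-/

universe u

open CategoryTheory AlgebraicGeometry Limits

namespace Helper15.Chow

open Pool.Agent.Helper10 Pool.Agent.Helper10.SmProjVar

variable {k : Type u} [Field k]

/-- There is a closed point; its residue field is a finite extension of `k`. -/
lemma exists_closed_point (X : SmProjVar k) :
    ∃ x : X.Pt, X.pointDim x = 0 ∧ X.residueDeg x ≠ 0 := by
  have h1 : JacobsonSpace X.toOver.left := LocallyOfFiniteType.jacobsonSpace X.toOver.hom
  obtain ⟨x, hx⟩ : ∃ x : X.toOver.left, IsClosed {x} := by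
    have h2 : (closedPoints X.toOver.left).Nonempty := by
      rw [Set.nonempty_iff_ne_empty]
      intro h
      have h3 := closure_closedPoints (X := X.toOver.left)
      rw [h, closure_empty] at h3
      exact (Set.empty_ne_univ h3).elim
    obtain ⟨x, hx⟩ := h2
    exact ⟨x, hx⟩
  have h4 := isClosed_singleton_iff_isClosedImmersion.mp hx
  have h5 : IsFinite (X.toOver.left.fromSpecResidueField x ≫ X.toOver.hom) :=
    (isFinite_iff_locallyOfFiniteType_of_jacobsonSpace
      (f := X.toOver.left.fromSpecResidueField x ≫ X.toOver.hom)).mpr inferInstance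
  set φ := Spec.preimage (X.toOver.left.fromSpecResidueField x ≫ X.toOver.hom) with hφ
  have h6 : Spec.map φ = X.toOver.left.fromSpecResidueField x ≫ X.toOver.hom :=
    Spec.map_preimage _
  have h7 : φ.hom.Finite := by
    rw [← IsFinite.SpecMap_iff, h6]; exact h5
  refine ⟨x, ?_, ?_⟩
  · change Cardinal.toNat (@Algebra.trdeg k (X.toOver.left.residueField x) _ _ φ.hom.toAlgebra) = 0
    let _ : Algebra k (X.toOver.left.residueField x) := φ.hom.toAlgebra
    have : Module.Finite k (X.toOver.left.residueField x) := h7
    have : Algebra.IsAlgebraic k (X.toOver.left.residueField x) := Algebra.IsAlgebraic.of_finite _ _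
    rw [trdeg_eq_zero]
    simp
  · set y := X.toOver.hom x with hy
    set ρ := X.toOver.hom.residueFieldMap x with hρ
    have h8 : φ = Spec.preimage ((Spec (CommRingCat.of k)).fromSpecResidueField y) ≫ ρ := by
      apply Spec.map_injective
      rw [h6, Spec.map_comp, Spec.map_preimage]
      exact (Scheme.Hom.SpecMap_residueFieldMap_fromSpecResidueField X.toOver.hom x).symm
    have h9 : ρ.hom.Finite := by
      rw [h8] at h7
      exact RingHom.Finite.of_comp_finite h7
    change @Module.finrank ((Spec (CommRingCat.of k)).residueField y)
      (X.toOver.left.residueField x) _ _ (@Algebra.toModule _ _ _ _ ρ.hom.toAlgebra) ≠ 0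
    let _ : Algebra ((Spec (CommRingCat.of k)).residueField y)
      (X.toOver.left.residueField x) := ρ.hom.toAlgebra
    have : Module.Finite ((Spec (CommRingCat.of k)).residueField y)
      (X.toOver.left.residueField x) := h9
    exact (Module.finrank_pos).ne'

end Helper15.Chow
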