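import Mathlib
import Pool.Agent.Helper47.Chow.RingPart

/-!
# Decompositions which are tame in high degrees

Pure ring theory: comparison of decompositions modulo an ideal, when only the pieces of index at
least `s` are known to be finite dimensional.
-/

namespace Helper15.Chow

open Finset Helper47.Chow

variable {R : Type*} [Ring R] {V : Type*} [AddCommGroup V] [Module R V]

/-- Move an idempotent `φ` from the piece `j` to the piece `m`. -/
def moved (e : ℕ → R) (φ : R) (j m k : ℕ) : R :=
  if k = j then e j - φ else if k = m then e m + φ else e k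

lemma moved_isDecomp {N : ℕ} {e : ℕ → R} (h : IsDecomp N e) {φ : R} {j m : ℕ} (hjm : j ≠ m)
    (hj : j ≤ N) (hm : m ≤ N) (hφ : φ * φ = φ) (h1 : e j * φ = φ) (h2 : φ * e j = φ) :
    IsDecomp N (moved e φ j m) := by
  have hl : ∀ k, k ≠ j → e k * φ = 0 := fun k hk => by
    rw [← h1, ← mul_assoc, h.orth k j hk, zero_mul]
  have hr : ∀ k, k ≠ j → φ * e k = 0 := fun k hk => by
    rw [← h2, mul_assoc, h.orth j k hk.symm, mul_zero]
  refine ⟨fun k => ?_, fun k l hkl => ?_, ?_, fun k hk => ?_⟩
  · unfold moved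
    split_ifs with ha hb
    · rw [sub_mul, mul_sub, mul_sub, h.idem, h1, h2, hφ]; abel
    · rw [add_mul, mul_add, mul_add, h.idem, hl m hjm.symm, hr m hjm.symm, hφ]; abel
    · exact h.idem k
  · unfold moved
    split_ifs with ha hb hc hd he hf hg
    · exact absurd (ha.trans hb.symm) hkl
    · rw [sub_mul, mul_add, mul_add, h.orth j m hjm, h1, hr m hjm.symm, hφ]; abel
    · rw [sub_mul, h.orth j l (by omega), hr l hb]; abel
    · rw [add_mul, mul_sub, mul_sub, h.orth m j hjm.symm, hl m hjm.symm, h2, hφ]; abel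
    · exact absurd (hd.trans hf.symm) hkl
    · rw [add_mul, h.orth m l (by omega), hr l he]; abel
    · rw [mul_sub, h.orth k j ha, hl k ha]; abel
    · rw [mul_add, h.orth k m hd, hl k ha]; abel
    · exact h.orth k l hkl
  · have key : ∀ k, moved e φ j m k = e k + ((if k = m then φ else 0) - (if k = j then φ else 0)) := by
      intro k
      unfold moved
      split_ifs with ha hb hc
      · exact absurd (ha.symm.trans hb) hjm
      · rw [ha]; abel
      · rw [hc]; abel
      · abel
    rw [Finset.sum_congr rfl fun k _ => key k, Finset.sum_add_distrib, Finset.sum_sub_distrib,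
      Finset.sum_ite_eq' (range (N + 1)) m, Finset.sum_ite_eq' (range (N + 1)) j,
      if_pos (mem_range.2 (by omega)), if_pos (mem_range.2 (by omega)), h.sum]
    abel
  · unfold moved
    rw [if_neg (by omega), if_neg (by omega), h.zero k hk]

/-- If a nil idempotent `E` is congruent to an idempotent `q` which kills `V0`, then `E` kills
`V0`. -/
lemma kills_of_congr (I : Ideal R) [I.IsTwoSided] (V0 : Submodule R V) {E q : R}
    (hE : E * E = E) (hnil : ∀ x ∈ I, IsNilpotent (E * x * E)) (hEq : E - q ∈ I)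
    (hq : ∀ v ∈ V0, q • v = 0) : ∀ v ∈ V0, E • v = 0 := by
  intro v hv
  obtain ⟨n, hn⟩ := hnil _ hEq
  set y : R := E * (E - q) * E with hy
  have h1 : ∀ u ∈ V0, y • u = E • u := by
    intro u hu
    rw [hy, mul_smul, mul_smul, sub_smul, hq _ (V0.smul_mem _ hu), sub_zero, ← mul_smul,
      ← mul_smul, mul_assoc, hE, hE]
  have h2 : ∀ m, y ^ (m + 1) • v = E • v := by
    intro m
    induction m with
    | zero => rw [zero_add, pow_one]; exact h1 v hv
    | succ m ih =>
      rw [pow_succ', mul_smul, ih, h1 _ (V0.smul_mem _ hv), ← mul_smul, hE]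
  rw [← h2 n, pow_succ', hn, mul_zero, zero_smul]

/-- **Ring theoretic criterion.** -/
theorem pieces_iff (I : Ideal R) [I.IsTwoSided] (V0 : Submodule R V)
    (hIV : ∀ x ∈ I, ∀ v : V, x • v ∈ V0) {N : ℕ} {s : ℕ} (hs : s ≤ N) {e0 : ℕ → R}
    (he0 : IsDecomp N e0) {E : ℕ → R}
    (tame : ∀ k, s ≤ k → k ≤ N → E k * E k = E k ∧ E k - e0 k ∈ I ∧
      ∀ x ∈ I, IsNilpotent (E k * x * E k)) :
    (∀ e : ℕ → R, IsDecomp N e → (∀ k, e k - e0 k ∈ I) →
        ∀ v ∈ V0, ∀ k, s ≤ k → e k • v = 0) ↔
      (∀ k, s ≤ k → k ≤ N → ∀ v ∈ V0, E k • v = 0) ∧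
      (∀ e : ℕ → R, IsDecomp N e → (∀ k, e k - e0 k ∈ I) → ∀ j, ∀ φ ∈ I, φ * φ = φ →
        e j * φ = φ → φ * e j = φ → ∀ v : V, φ • v = 0) := by
  constructor
  · intro H
    refine ⟨fun k hk hkN => ?_, ?_⟩
    · obtain ⟨h1, h2, h3⟩ := tame k hk hkN
      exact kills_of_congr I V0 h1 h3 h2 fun v hv =>
        H e0 he0 (fun k => by rw [sub_self]; exact I.zero_mem) v hv k hk
    intro e he hc j φ hφI hφ h1 h2 v
    by_cases hj : s ≤ j
    · have h3 := H e he hc (φ • v) (hIV φ hφI v) j hj
      rwa [← mul_smul, h1] at h3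
    · have hjN : j ≠ N := by omega
      have h3 := H (moved e φ j N) (moved_isDecomp he hjN (by omega) le_rfl hφ h1 h2) ?_
        (φ • v) (hIV φ hφI v) N hs
      · have h4 : e N * φ = 0 := by
          rw [← h1, ← mul_assoc, he.orth N j hjN.symm, zero_mul]
        unfold moved at h3
        rw [if_neg hjN.symm, if_pos rfl, ← mul_smul, add_mul, h4, hφ, zero_add] at h3
        exact h3
      · intro k
        unfold moved
        split_ifs with ha hb
        · subst ha
          rw [show e k - φ - e0 k = (e k - e0 k) - φ by abel]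
          exact I.sub_mem (hc k) hφI
        · subst hb
          rw [show e k + φ - e0 k = (e k - e0 k) + φ by abel]
          exact I.add_mem (hc k) hφI
        · exact hc k
  · rintro ⟨hkill, H⟩ e he hc v hv k hk
    by_cases hkN : k ≤ N
    · obtain ⟨hE, hEc, hnil⟩ := tame k hk hkN
      have hqp : e k - E k ∈ I := by
        rw [show e k - E k = (e k - e0 k) - (E k - e0 k) by abel]
        exact I.sub_mem (hc k) hEc
      obtain ⟨z, hz1, hz2, hz3⟩ := tame_piece I hnil hE (he.idem k) hE hE hqp
      have h1 : e k * (e k * z * e k) = e k * z * e k := by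
        rw [← mul_assoc, ← mul_assoc, he.idem]
      have h2 : (e k * z * e k) * e k = e k * z * e k := by
        rw [mul_assoc, he.idem]
      have hidem : (e k - e k * z * e k) * (e k - e k * z * e k) = e k - e k * z * e k := by
        rw [sub_mul, mul_sub, mul_sub, he.idem, h1, h2, hz2]; abel
      have h0 := H e he hc k _ hz3 hidem (by rw [mul_sub, he.idem, h1])
        (by rw [sub_mul, he.idem, h2]) v
      rw [sub_smul, sub_eq_zero] at h0
      rw [h0, mul_smul, mul_smul, ← hz1, mul_smul]
      rw [hkill k hk hkN _ (V0.smul_mem _ (V0.smul_mem _ hv)), smul_zero]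
    · rw [he.zero k (by omega), zero_smul]

/-- If `(1 - e) I (1 - e)` is nil, every idempotent in `I` factors through `e`. -/
lemma factors_of_nil (I : Ideal R) [I.IsTwoSided] {e φ : R} (he : e * e = e)
    (nil : ∀ x ∈ I, IsNilpotent ((1 - e) * x * (1 - e))) (hφI : φ ∈ I) (hφ : φ * φ = φ) :
    ∃ w : R, φ = φ * e * w := by
  set f : R := 1 - e with hf
  have hff : f * f = f := by rw [hf, mul_sub, mul_one, sub_mul, one_mul, he]; abel
  set y : R := φ * f * φ with hy
  have hyI : y ∈ I := Ideal.mul_mem_left _ _ hφI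
  have hφy : φ * y = y := by rw [hy, ← mul_assoc, ← mul_assoc, hφ]
  have hyφ : y * φ = y := by rw [hy, mul_assoc, hφ]
  have hynil : IsNilpotent y := by
    obtain ⟨n, hn⟩ := nil φ hφI
    refine ⟨n + 1, ?_⟩
    have h : ∀ m, y ^ (m + 1) = φ * (f * φ * f) ^ m * f * φ := by
      intro m
      induction m with
      | zero => rw [zero_add, pow_one, pow_zero, mul_one, hy]
      | succ m ih =>
        rw [pow_succ, ih, hy, pow_succ]
        calc φ * (f * φ * f) ^ m * f * φ * (φ * f * φ)
            = φ * (f * φ * f) ^ m * f * (φ * φ) * f * φ := by simp only [mul_assoc]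
          _ = φ * (f * φ * f) ^ m * f * φ * (f * f) * φ := by rw [hφ, hff]
          _ = φ * ((f * φ * f) ^ m * (f * φ * f)) * f * φ := by simp only [mul_assoc]
    rw [h, hn, mul_zero, zero_mul, zero_mul]
  obtain ⟨w, hw1, hw2, hcomm, -⟩ := exists_inv_of_nilpotent I hynil hyI hφy hyφ
  refine ⟨φ * w, ?_⟩
  have h1 : φ * e * φ = φ * (1 - y) := by
    have h2 : e = 1 - f := by rw [hf]; abel
    calc φ * e * φ = φ * (1 - f) * φ := by rw [← h2]
      _ = φ * φ - y := by rw [hy]; noncomm_ring
      _ = φ * (1 - y) := by rw [mul_sub, mul_one, hφy, hφ]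
  calc φ = φ * ((1 - y) * w) := by rw [hw1, mul_one]
    _ = φ * e * φ * w := by rw [← mul_assoc, h1]
    _ = φ * e * (φ * w) := by rw [mul_assoc (φ * e)]

/-- If an idempotent `φ` factors through the idempotent `e`, `φ = b * e * a`, then
`e * a * φ * b * e` is an idempotent. -/
lemma conj_idem {e φ a b : R} (he : e * e = e) (hφ : φ * φ = φ) (h : φ = b * e * a) :
    (e * a * φ * b * e) * (e * a * φ * b * e) = e * a * φ * b * e ∧
      b * (e * a * φ * b * e) * a = φ := by
  constructor
  · calc (e * a * φ * b * e) * (e * a * φ * b * e)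
        = e * a * φ * (b * (e * e) * a) * φ * b * e := by simp only [mul_assoc]
      _ = e * a * φ * φ * φ * b * e := by rw [he, ← h]
      _ = e * a * φ * b * e := by rw [mul_assoc (e * a) φ φ, hφ, mul_assoc (e * a) φ φ, hφ]
  · calc b * (e * a * φ * b * e) * a = (b * e * a) * φ * (b * e * a) := by
          simp only [mul_assoc]
      _ = φ := by rw [← h, hφ, hφ]

end Helper15.Chow
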