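import Mathlib
import Pool.Agent.Helper47.Chow.Phantom

/-!
# Nil pieces in given degrees, and phantoms in the pieces of Chow-Künneth decompositions
-/

universe u v w

open CategoryTheory AlgebraicGeometry

namespace Pool.Agent.Helper47.Chow

open Pool.Agent.Helper10 Pool.Agent.Helper10.SmProjVar

variable {k : Type u} [Field k] {K : Type v} [Field K] [CharZero K]
  {W : WeilCohomology.{u, v, w} k K}

namespace ChowTheory

variable (C : ChowTheory W)

/-- The idempotent correspondence `E` of degree `0` acts on `H^j(X)` as the identity and on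
`H^l(X)`, `l ≠ j`, as `0` (so that the motive `(X, E)` has the cohomology `H^j(X)`), and its
homologically trivial endomorphisms `E ∘ γ ∘ E` are nilpotent. -/
structure IsNilPiece (X : SmProjVar k) (j : ℕ) (E : CH (X.prod X)) : Prop where
  mem : E ∈ CHi (X.prod X) X.dim
  idem : C.comp E E = E
  act_same : ∀ x ∈ W.gr X j, ∀ y : W.H X,
    W.tr (X.prod X) (W.pull (fst X X) x * C.ops.cl _ E * W.pull (snd X X) y) = W.tr X (x * y)
  act_other : ∀ l, l ≠ j → ∀ x ∈ W.gr X l, ∀ y : W.H X,
    W.tr (X.prod X) (W.pull (fst X X) x * C.ops.cl _ E * W.pull (snd X X) y) = 0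
  nil : ∀ γ ∈ CHi (X.prod X) X.dim, C.ops.cl _ γ = 0 →
    ∃ n, C.pow (C.comp (C.comp E γ) E) n = 0

/-- The homologically trivial idempotent correspondence `φ` factors through a piece of some
Chow-Künneth decomposition `π` of `X`: `φ = β ∘ π j ∘ α` with `α`, `β` of degree `0` (so that
`(X, φ)` is isomorphic to a direct summand, without cohomology, of the motive `(X, π j)`). -/
def IsPiecePhantom (X : SmProjVar k) (φ : CH (X.prod X)) : Prop :=
  C.IsPhantom X φ ∧ ∃ (π : ℕ → CH (X.prod X)) (j : ℕ) (α β : CH (X.prod X)), C.IsCK X π ∧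
    α ∈ CHi (X.prod X) X.dim ∧ β ∈ CHi (X.prod X) X.dim ∧ φ = C.comp (C.comp α (π j)) β

end ChowTheory

end Pool.Agent.Helper47.Chow
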