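import Mathlib
import Pool.Agent.Helper47.Chow.Alg
import Pool.Agent.Helper15.Chow.Ring
import Pool.Agent.Helper15.Chow.Point
import Pool.Agent.Helper15.Chow.TopDefs

/-!
# Murre's conjecture (D) in high codimension and phantoms
-/

universe u v w

open CategoryTheory AlgebraicGeometry Limits

namespace Pool.Agent.Helper47.Chow

open Pool.Agent.Helper10 Pool.Agent.Helper10.SmProjVar

variable {k : Type u} [Field k] {K : Type v} [Field K] [CharZero K]
  {W : WeilCohomology.{u, v, w} k K} {C : ChowTheory W}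

/-- The projector `X × pt` of top degree. -/
lemma exists_top (X : SmProjVar k) (i : ℕ) : ∃ E, C.IsNilPiece X (2 * X.dim) E ∧
    ∀ a ∈ CHi X i, C.ops.cl X a = 0 → C.act E a = 0 := by
  obtain ⟨x, hx0, hxd⟩ := Helper15.Chow.exists_closed_point X
  set r : ℚ := (X.residueDeg x : ℚ) with hr
  have hr0 : r ≠ 0 := by rw [hr]; exact_mod_cast hxd
  set a : CH X := r⁻¹ • ptCls X x with ha
  have hpt : ptCls X x ∈ CHi X X.dim := ChowTheory.ptCls_mem x X.dim (by omega)
  have haM : a ∈ CHi X X.dim := (CHiL X X.dim).smul_mem _ hpt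
  have hone : one X ∈ CHi X 0 := ChowTheory.one_mem_iff (pointDim_genericPt W X)
  have htr : W.tr X (C.cl X a) = 1 := by
    rw [ha, cl_smul, (W.trace X).map_smul, tr_cl_ptCls C x hx0]
    have h1 : ((X.residueDeg x : ℕ) : K) ≠ 0 := by exact_mod_cast hxd
    rw [hr]
    push_cast
    exact inv_mul_cancel₀ h1
  have hpush : C.push (snd X X) (C.pull (fst X X) a) = (1 : ℚ) • one X := by
    rw [ha, map_smul, map_smul, C.push_snd_pull_fst, if_pos hx0, smul_smul, ← hr,
      inv_mul_cancel₀ hr0]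
  have hspan : ∀ z ∈ W.gr X (2 * X.dim), z = W.tr X z • C.cl X a := by
    intro z hz
    obtain ⟨z0, -, huniq⟩ := (W.trace X).bijective (W.tr X z)
    rw [huniq z ⟨hz, rfl⟩]
    refine (huniq _ ⟨Submodule.smul_mem _ _ (C.cl_mem _ _ _ haM), ?_⟩).symm ▸ ?_
    · rw [(W.trace X).map_smul, htr]
      rw [_root_.mul_one, ← huniq z ⟨hz, rfl⟩]
    · rfl
  have hE : extProd C (one X) a ∈ algProj C X X.dim 0 :=
    Submodule.subset_span ⟨one X, hone, a, haM, rfl⟩
  refine ⟨extProd C (one X) a, ⟨algProj_mem C (by omega) hE, ?_, ?_, ?_, ?_⟩, ?_⟩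
  · rw [comp_extProd, act_extProd, C.mul_one, hpush, one_smul, C.one_mul]
  · intro z hz y
    change pairH C z y (extProd C (one X) a) = _
    rw [pairH_extProd, cl_one, _root_.mul_one]
    conv_rhs => rw [hspan z hz, smul_mul_assoc, (W.trace X).map_smul]
  · intro l hl z hz y
    change pairH C z y (extProd C (one X) a) = _
    rw [pairH_extProd, cl_one, _root_.mul_one, (W.trace X).eq_zero l z hl hz, zero_mul]
  · intro γ hγ h0
    refine ⟨1, ?_⟩
    change C.comp (C.Δ X) _ = 0
    rw [C.Δ_comp]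
    exact comp_hom_algProj (by omega) hE hE hγ h0
  · intro c hc h0
    exact act_algProj_hom (by omega) hE c hc h0

/-- If `π` is a Chow-Künneth decomposition such that the sum of all pieces but the `m`-th one has
only nilpotent homologically trivial endomorphisms, then all phantoms factor through `π m`. -/
theorem isPiecePhantom_of_nilOutside (X : SmProjVar k) {π : ℕ → CH (X.prod X)}
    (hπ : C.IsCK X π) {m : ℕ} (hnil : C.NilOutside X π m) {φ : CH (X.prod X)}
    (hφ : C.IsPhantom X φ) : C.IsPiecePhantom X φ := by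
  obtain ⟨hφm, hφcl, hφid⟩ := hφ
  obtain ⟨f, hf⟩ : ∃ f : Corr C X, f.val = φ := ⟨⟨φ, hφm⟩, rfl⟩
  obtain ⟨w, hw⟩ := Helper15.Chow.factors_of_nil (homIdeal C X) (e := IsCK.corr hπ m) (φ := f)
    ((IsCK.isDecomp hπ).idem m)
    (by
      intro x hx
      obtain ⟨n, hn⟩ := hnil x.1 x.2 hx
      refine ⟨n, Corr.ext ?_⟩
      rw [ChowTheory.pow_val, Corr.zero_val, ← hn, C.comp_assoc]
      rfl)
    (by change C.cl _ f.val = 0; rw [hf]; exact hφcl)
    (Corr.ext (by rw [Corr.mul_val, hf]; exact hφid))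
  refine ⟨⟨hφm, hφcl, hφid⟩, π, m, w.val, f.val, hπ, w.2, f.2, ?_⟩
  rw [← hf, hw]
  have h := congrArg Corr.val hw
  rw [Corr.mul_val, Corr.mul_val] at h
  rw [← C.comp_assoc] at h
  rw [← hw]
  exact h

/-- **Theorem.**  Suppose that for every `j` with `2 i ≤ j < 2 dim X` there is a nil projector
`E j` in degree `j`, and that `X` has a Chow-Künneth decomposition.  Then all Chow-Künneth
decompositions of `X` satisfy Murre's conjecture (D) in codimension `i` if and only if the `E j`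
kill the homologically trivial classes in `CH^i(X)` and the phantoms which factor through pieces
of Chow-Künneth decompositions of `X` act as zero on `CH^i(X)`. -/
theorem top_pieces (X : SmProjVar k) (i : ℕ) (E : ℕ → CH (X.prod X))
    (hE : ∀ j, 2 * i ≤ j → j < 2 * X.dim → C.IsNilPiece X j (E j)) (hX : ∃ π, C.IsCK X π) :
    (∀ π : ℕ → CH (X.prod X), C.IsCK X π → C.MurreD X π i) ↔
      (∀ j, 2 * i ≤ j → j < 2 * X.dim → ∀ a ∈ CHi X i, C.ops.cl X a = 0 → C.act (E j) a = 0) ∧
      ∀ φ, C.IsPiecePhantom X φ → ∀ a ∈ CHi X i, C.act φ a = 0 := by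
  by_cases hi : X.dim < i
  · constructor
    · intro _
      refine ⟨fun j hj hj' => by omega, ?_⟩
      intro φ _ a ha
      rw [ChowTheory.eq_zero_of_dim_lt i hi a ha, C.act_zero]
    · intro _ π' _
      exact ChowTheory.murreD_of_dim_lt i hi
  rw [not_lt] at hi
  obtain ⟨π0, hπ0⟩ := hX
  obtain ⟨T, hT, hTkill⟩ := exists_top (C := C) X i
  -- the nil projectors in all degrees `≥ 2 i`
  set E' : ℕ → CH (X.prod X) := fun j => if j = 2 * X.dim then T else E j with hE'def
  have hE' : ∀ j, 2 * i ≤ j → j ≤ 2 * X.dim → C.IsNilPiece X j (E' j) := by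
    intro j hj hj'
    rw [hE'def]
    dsimp only
    split_ifs with h
    · rw [h]; exact hT
    · exact hE j hj (by omega)
  have hcorr : ∀ π, C.IsCK X π → ∃ e : ℕ → Corr C X, Helper47.Chow.IsDecomp (2 * X.dim) e ∧
      (∀ k, e k - IsCK.corr hπ0 k ∈ homIdeal C X) ∧ ∀ k, (e k).val = π k := fun π hπ =>
    ⟨IsCK.corr hπ, IsCK.isDecomp hπ, fun j => IsCK.congr hπ0 hπ j, fun _ => rfl⟩
  obtain ⟨Ec, hEc⟩ : ∃ Ec : ℕ → Corr C X, ∀ j, 2 * i ≤ j → j ≤ 2 * X.dim → (Ec j).val = E' j := by
    have h : ∀ j, ∃ c : Corr C X, 2 * i ≤ j → j ≤ 2 * X.dim → c.val = E' j := by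
      intro j
      by_cases h : 2 * i ≤ j ∧ j ≤ 2 * X.dim
      · exact ⟨⟨E' j, (hE' j h.1 h.2).mem⟩, fun _ _ => rfl⟩
      · exact ⟨0, fun h1 h2 => absurd ⟨h1, h2⟩ h⟩
    exact ⟨fun j => (h j).choose, fun j => (h j).choose_spec⟩
  have key := Helper15.Chow.pieces_iff (homIdeal C X) (homTriv C X i)
    (fun γ hγ a => C.cl_act_of_right γ.val a.1 hγ) (N := 2 * X.dim) (s := 2 * i) (by omega)
    (e0 := IsCK.corr hπ0) (IsCK.isDecomp hπ0) (E := Ec)
    (by
      intro j hj hjN
      have hEj := hE' j hj hjN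
      have hv := hEc j hj hjN
      refine ⟨Corr.ext ?_, ?_, ?_⟩
      · rw [Corr.mul_val, hv]; exact hEj.idem
      · change C.cl _ ((Ec j).val - π0 j) = 0
        rw [hv]
        refine eq_zero_of_kunneth W X X X.dim _
          (C.cl_mem _ _ _ (Submodule.sub_mem (CHiL _ _) hEj.mem (hπ0.mem j))) ?_
        intro l x hx y
        have h1 : W.tr (X.prod X) (W.pull (fst X X) x * C.cl _ (E' j - π0 j) *
              W.pull (snd X X) y)
            = W.tr (X.prod X) (W.pull (fst X X) x * C.cl _ (E' j) * W.pull (snd X X) y)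
              - W.tr (X.prod X) (W.pull (fst X X) x * C.cl _ (π0 j) * W.pull (snd X X) y) := by
          rw [map_sub, mul_sub, sub_mul]
          exact map_sub (trL W (X.prod X)) _ _
        rw [h1]
        by_cases hjl : l = j
        · subst hjl
          rw [IsCK.act_same' hπ0 l x hx]
          have h2 := hEj.act_same x hx y
          change W.tr (X.prod X) (W.pull (fst X X) x * C.cl _ (E' l) * W.pull (snd X X) y) = _
            at h2
          rw [h2, sub_self]
        · rw [IsCK.act_other' hπ0 j l (Ne.symm hjl) x hx]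
          have h2 := hEj.act_other l hjl x hx y
          change W.tr (X.prod X) (W.pull (fst X X) x * C.cl _ (E' j) * W.pull (snd X X) y) = _
            at h2
          rw [h2, sub_self]
      · intro γ hγ
        obtain ⟨n, hn⟩ := hEj.nil γ.1 γ.2 hγ
        refine ⟨n, Corr.ext ?_⟩
        rw [ChowTheory.pow_val, Corr.zero_val, ← hn, C.comp_assoc, Corr.mul_val, Corr.mul_val,
          hv]
        rfl)
  -- translation of the statement about the `E j`
  have hkill : (∀ k, 2 * i ≤ k → k ≤ 2 * X.dim → ∀ v ∈ homTriv C X i, Ec k • v = 0) ↔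
      (∀ j, 2 * i ≤ j → j < 2 * X.dim → ∀ a ∈ CHi X i, C.ops.cl X a = 0 →
        C.act (E j) a = 0) := by
    constructor
    · intro H j hj hj' a ha h0
      have h1 := congrArg Subtype.val (H j hj hj'.le ⟨a, ha⟩ h0)
      rw [smul_val, hEc j hj hj'.le] at h1
      rw [hE'def] at h1
      dsimp only at h1
      rw [if_neg hj'.ne] at h1
      exact h1
    · intro H j hj hj' v hv
      refine Subtype.ext ?_
      rw [smul_val, hEc j hj hj', hE'def]
      dsimp only
      split_ifs with h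
      · exact hTkill v.1 v.2 hv
      · exact H j hj (by omega) v.1 v.2 hv
  rw [hkill] at key
  have hmain : (∀ π : ℕ → CH (X.prod X), C.IsCK X π → C.MurreD X π i) ↔
      (∀ e : ℕ → Corr C X, Helper47.Chow.IsDecomp (2 * X.dim) e →
        (∀ k, e k - IsCK.corr hπ0 k ∈ homIdeal C X) →
        ∀ v ∈ homTriv C X i, ∀ k, 2 * i ≤ k → e k • v = 0) := by
    constructor
    · intro H e' he' hc' v hv l hl
      have h1 := isCK_of_congr hπ0 e' he' hc'
      exact Subtype.ext ((murreD_iff h1 i).1 (H _ h1) v.1 v.2 hv l hl)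
    · intro H π' hπ'
      rw [murreD_iff hπ']
      intro a ha hcl j hj
      obtain ⟨e, he, hc, hval⟩ := hcorr π' hπ'
      have h2 := congrArg Subtype.val (H e he hc ⟨a, ha⟩ hcl j hj)
      rw [smul_val, hval] at h2
      exact h2
  rw [hmain, key]
  refine and_congr_right fun _ => ?_
  constructor
  · rintro H φ ⟨⟨hφm, hφcl, hφid⟩, π, j, α, β, hπ, hα, hβ, hφ⟩ a ha
    obtain ⟨e, he, hc, hval⟩ := hcorr π hπ
    obtain ⟨f, hf⟩ : ∃ f : Corr C X, f.val = φ := ⟨⟨φ, hφm⟩, rfl⟩
    obtain ⟨p, hp⟩ : ∃ p : Corr C X, p.val = α := ⟨⟨α, hα⟩, rfl⟩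
    obtain ⟨q, hq⟩ : ∃ q : Corr C X, q.val = β := ⟨⟨β, hβ⟩, rfl⟩
    have hf1 : f = q * e j * p := Corr.ext (by
      rw [Corr.mul_val, Corr.mul_val, hf, hp, hq, hval, hφ, C.comp_assoc])
    have hf3 : f * f = f := Corr.ext (by rw [Corr.mul_val, hf]; exact hφid)
    have hf4 : f ∈ homIdeal C X := by
      change C.cl _ f.val = 0
      rw [hf]; exact hφcl
    obtain ⟨h1, h2⟩ := Helper15.Chow.conj_idem (he.idem j) hf3 hf1
    have h3 := H e he hc j (e j * p * f * q * e j)
      (Ideal.mul_mem_right _ _ (Ideal.mul_mem_right _ _ (Ideal.mul_mem_left _ _ hf4))) h1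
      (by rw [← mul_assoc, ← mul_assoc, ← mul_assoc, ← mul_assoc, he.idem])
      (by rw [mul_assoc _ (e j) (e j), he.idem]) (p • ⟨a, ha⟩)
    have h4 : f • (⟨a, ha⟩ : CHiL X i) = 0 := by
      rw [← h2, mul_smul, mul_smul, h3, smul_zero]
    have h5 := congrArg Subtype.val h4
    rw [smul_val, hf] at h5
    exact h5
  · intro H e' he' hc' l φ hφI hφ h1 h2 v
    have hCK := isCK_of_congr hπ0 e' he' hc'
    refine Subtype.ext (H φ.1 ⟨⟨φ.2, hφI, congrArg Corr.val hφ⟩, _, l, φ.1, (e' l).1, hCK,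
      φ.2, (e' l).2, ?_⟩ v.1 v.2)
    have h3 : φ = e' l * (e' l * φ) := by rw [h1, h1]
    exact congrArg Corr.val h3

end Pool.Agent.Helper47.Chow
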